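import Mathlib
import Pool.Agent.KK.StmtsB

/-! MP_747bc0_co, block B: MIS (a word with different majority values has a missing type). -/

namespace Pool.Agent.KK.B.H69

open Function
open scoped Classical
open Pool.Agent.KK.B

variable {k : ℕ} {V : Type} [Fintype V]

/-- two words of the same weight differ by a permutation of the letters -/
theorem exists_perm_word {W W' : Fin k → Bool} (h : wt W' = wt W) :
    ∃ σ : Equiv.Perm (Fin k), ∀ l, W (σ l) = W' l := by
  have h1 : Fintype.card {l // W' l = true} = Fintype.card {l // W l = true} := by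
    rw [Fintype.card_subtype, Fintype.card_subtype]
    exact h
  let e : {l // W' l = true} ≃ {l // W l = true} := Fintype.equivOfCardEq h1
  refine ⟨e.extendSubtype, fun l => ?_⟩
  by_cases hl : W' l = true
  · rw [hl]
    exact e.extendSubtype_mem l hl
  · have h2 := e.extendSubtype_not_mem l hl
    rw [Bool.not_eq_true] at hl h2
    rw [hl, h2]

theorem dens_word {E : (Fin k → V) → Prop} (hE : Symm E) (X : V → Prop) {W W' : Fin k → Bool}
    (h : wt W' = wt W) :
    dens (fun e => E e ∧ wd X W' e) = dens (fun e => E e ∧ wd X W e) := by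
  obtain ⟨σ, hσ⟩ := exists_perm_word h
  rw [← dens_perm σ (fun e => E e ∧ wd X W' e)]
  refine dens_congr fun a => and_congr (hE σ a) ?_
  constructor
  · intro h1 l
    have h2 := h1 (σ.symm l)
    rw [comp_apply, Equiv.apply_symm_apply] at h2
    rw [h2, ← hσ (σ.symm l), Equiv.apply_symm_apply]
  · intro h1 l
    rw [comp_apply, ← hσ l]
    exact h1 (σ l)

theorem mis_aux [Nonempty V] {E : (Fin k → V) → Prop} {D : Fin k → (Fin k → V) → Prop}
    {X : V → Prop} {ε ν : ℝ} {i l : Fin k} {W : Fin k → Bool} (hE : Symm E) (hC : Closed E ε D)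
    (hW : WDet ν X D) (hi : maj D X i W) (hl : ¬ maj D X l W) :
    tden E X (wt W) ≤ 2 ^ k * (ε + 2 * ν) := by
  unfold maj at hi hl
  rw [not_le] at hl
  have h1 : dens (fun a => ¬ D i a ∧ wd X W a) ≤ ν := by
    rcases hW i W with h | h
    · exact hi.trans h
    · exact h
  have h2 : dens (fun a => D l a ∧ wd X W a) ≤ ν := by
    rcases hW l W with h | h
    · exact h
    · exact hl.le.trans h
  have h3 : dens (fun e => E e ∧ wd X W e) ≤ ε + 2 * ν := by
    have h4 : dens (fun e => E e ∧ wd X W e) ≤ dens (fun e => (E e ∧ ¬ Mono D e) ∨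
        ((¬ D i e ∧ wd X W e) ∨ (D l e ∧ wd X W e))) := dens_mono fun e he => by
      by_cases hm : Mono D e
      · right
        by_cases hd : D i e
        · exact Or.inr ⟨(hm i l).1 hd, he.2⟩
        · exact Or.inl ⟨hd, he.2⟩
      · exact Or.inl ⟨he.1, hm⟩
    have h5 := dens_or_le (fun e => E e ∧ ¬ Mono D e)
      (fun e => (¬ D i e ∧ wd X W e) ∨ (D l e ∧ wd X W e))
    have h6 := dens_or_le (fun e => ¬ D i e ∧ wd X W e) (fun e => D l e ∧ wd X W e)
    have h7 : dens (fun e => E e ∧ ¬ Mono D e) ≤ ε := hC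
    linarith
  have h0 : 0 ≤ ε + 2 * ν := (dens_nonneg _).trans h3
  have h4 : tden E X (wt W) ≤
      dens (fun e => ∃ W' : {W' : Fin k → Bool // wt W' = wt W}, E e ∧ wd X W'.1 e) := by
    unfold tden
    refine dens_mono fun e he => ?_
    refine ⟨⟨fun l => decide (X (e l)), ?_⟩, he.1, fun l => ?_⟩
    · rw [← he.2]
      unfold wt typ
      refine congrArg Finset.card ?_
      ext l
      simp
    · simp
  refine h4.trans ((dens_exists_le _).trans ?_)
  have h5 : ∑ W' : {W' : Fin k → Bool // wt W' = wt W}, dens (fun e => E e ∧ wd X W'.1 e) ≤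
      ∑ _W' : {W' : Fin k → Bool // wt W' = wt W}, (ε + 2 * ν) :=
    Finset.sum_le_sum fun W' _ => by
      rw [dens_word hE X W'.2]
      exact h3
  refine h5.trans ?_
  rw [Finset.sum_const, nsmul_eq_mul, Finset.card_univ]
  refine mul_le_mul_of_nonneg_right ?_ h0
  have h6 : Fintype.card {W' : Fin k → Bool // wt W' = wt W} ≤ Fintype.card (Fin k → Bool) :=
    Fintype.card_subtype_le _
  rw [Fintype.card_fun, Fintype.card_bool, Fintype.card_fin] at h6
  exact_mod_cast h6

theorem mis : MisStmt := by
  intro k V _ _ E D X ε ν i l W hE hC hW hne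
  by_cases hi : maj D X i W
  · by_cases hl : maj D X l W
    · exact absurd (iff_of_true hi hl) hne
    · exact mis_aux hE hC hW hi hl
  · by_cases hl : maj D X l W
    · exact mis_aux hE hC hW hl hi
    · exact absurd (iff_of_false hi hl) hne

end Pool.Agent.KK.B.H69
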