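import Mathlib
import Pool.Agent.KK.StmtsB

/-! MP_747bc0_co, block B: PLT (plane trichotomy). -/

namespace Pool.Agent.KK.B.H69

open Function
open scoped Classical
open Pool.Agent.KK.B

section general

variable {V : Type} [Fintype V]

theorem exists_le_of_prod {α β : Type*} [Fintype α] [Fintype β] [Nonempty α] {Q : α → β → Prop}
    {t : ℝ} (h : dens (fun x : α × β => Q x.1 x.2) ≤ t) : ∃ a, dens (Q a) ≤ t := by
  by_contra hc
  push Not at hc
  rw [dens_prod] at h
  have h1 : (0 : ℝ) < Fintype.card α := by exact_mod_cast Fintype.card_pos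
  rw [div_le_iff₀ h1] at h
  have h2 : ∑ _a : α, t < ∑ a, dens (Q a) :=
    Finset.sum_lt_sum_of_nonempty Finset.univ_nonempty fun a _ => hc a
  rw [Finset.sum_const, nsmul_eq_mul, Finset.card_univ] at h2
  linarith [mul_comm (Fintype.card α : ℝ) t]

theorem dens_swap {α β : Type*} [Fintype α] [Fintype β] (Q : α → β → Prop) :
    dens (fun x : β × α => Q x.2 x.1) = dens (fun x : α × β => Q x.1 x.2) :=
  dens_equiv (Equiv.prodComm β α) (fun x : α × β => Q x.1 x.2)

/-- few points have a bad line -/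
theorem dens_bad {α γ : Type*} [Fintype α] [Fintype γ] {Q : α → γ → Prop} {β : ℝ} (hβ : 0 < β)
    (h : dens (fun x : α × γ => Q x.1 x.2) ≤ β ^ 2) : dens (fun a => β < dens (Q a)) ≤ β := by
  have h1 := markov Q β
  have h2 : dens (fun a => β < dens (Q a)) * β ≤ β * β := by nlinarith
  exact le_of_mul_le_mul_right h2 hβ

theorem half_le [Nonempty V] {A B : V → Prop} {G : V → V → Prop} {β : ℝ} (hβ : 0 < β)
    (hG : ∀ p, 1 / 2 ≤ dens (G p))
    (h : dens (fun x : V × V => G x.1 x.2 ∧ ¬ (A x.1 ↔ B x.2)) ≤ β ^ 2) (hA : β < dens A) :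
    1 / 2 ≤ β + dens B := by
  have h1 := dens_bad (Q := fun p q => G p q ∧ ¬ (A p ↔ B q)) hβ h
  have h2 : ∃ p, A p ∧ ¬ β < dens (fun q => G p q ∧ ¬ (A p ↔ B q)) := by
    by_contra hc
    have h3 : dens A ≤ dens (fun p => β < dens (fun q => G p q ∧ ¬ (A p ↔ B q))) :=
      dens_mono fun p hp => by_contra fun h' => hc ⟨p, hp, h'⟩
    linarith
  obtain ⟨p, hp, hb⟩ := h2
  rw [not_lt] at hb
  have h3 := hG p
  have h4 : dens (G p) ≤ dens (fun q => B q ∨ (G p q ∧ ¬ (A p ↔ B q))) := dens_mono fun q hq => by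
    by_cases hB : B q
    · exact Or.inl hB
    · exact Or.inr ⟨hq, fun h5 => hB (h5.1 hp)⟩
  have h5 := dens_or_le B (fun q => G p q ∧ ¬ (A p ↔ B q))
  linarith

theorem line_three [Nonempty V] {B G : V → Prop} {β : ℝ} (hG : 1 / 2 ≤ dens G)
    (hB : dens B ≤ 1 / 2 + β) (h : dens (fun q => G q ∧ ¬ B q) ≤ β) :
    dens (fun q => ¬ (G q ↔ B q)) ≤ 3 * β := by
  have h1 := dens_split G B
  have h2 := dens_split B G
  have h3 : dens (fun q => B q ∧ G q) = dens (fun q => G q ∧ B q) := dens_congr fun q => and_comm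
  have h4 : dens (fun q => ¬ (G q ↔ B q)) ≤ dens (fun q => (G q ∧ ¬ B q) ∨ (B q ∧ ¬ G q)) :=
    dens_mono fun q hq => by tauto
  have h5 := dens_or_le (fun q => G q ∧ ¬ B q) (fun q => B q ∧ ¬ G q)
  linarith

/-- the last case -/
theorem last_case [Nonempty V] {A B : V → Prop} {G : V → V → Prop} {β : ℝ} (hβ : 0 < β)
    (hsym : ∀ p q, G p q ↔ G q p) (hG : ∀ p, 1 / 2 ≤ dens (G p))
    (h : dens (fun x : V × V => G x.1 x.2 ∧ ¬ (A x.1 ↔ B x.2)) ≤ β ^ 2)
    (hB : |dens B - 1 / 2| ≤ β) : pm (8 * β) A B := by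
  rw [abs_le] at hB
  have hbad := dens_bad (Q := fun p q => G p q ∧ ¬ (A p ↔ B q)) hβ h
  have hnB : dens (fun q => ¬ B q) ≤ 1 / 2 + β := by
    rw [dens_not]; linarith [hB.1]
  -- the plane
  have h4 : dens (fun x : V × V => ¬ (G x.1 x.2 ↔ (A x.1 ↔ B x.2))) ≤ 4 * β := by
    have h5 : dens (fun x : V × V => ¬ (G x.1 x.2 ↔ (A x.1 ↔ B x.2))) ≤
        dens (fun x : V × V => (β < dens (fun q => G x.1 q ∧ ¬ (A x.1 ↔ B q))) ∨
          (dens (fun q => G x.1 q ∧ ¬ (A x.1 ↔ B q)) ≤ β ∧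
            ¬ (G x.1 x.2 ↔ (A x.1 ↔ B x.2)))) := dens_mono fun x hx => by
      rcases lt_or_ge β (dens (fun q => G x.1 q ∧ ¬ (A x.1 ↔ B q))) with h6 | h6
      · exact Or.inl h6
      · exact Or.inr ⟨h6, hx⟩
    have h6 := dens_or_le (fun x : V × V => β < dens (fun q => G x.1 q ∧ ¬ (A x.1 ↔ B q)))
      (fun x : V × V => dens (fun q => G x.1 q ∧ ¬ (A x.1 ↔ B q)) ≤ β ∧
            ¬ (G x.1 x.2 ↔ (A x.1 ↔ B x.2)))
    have h7 : dens (fun x : V × V => β < dens (fun q => G x.1 q ∧ ¬ (A x.1 ↔ B q))) ≤ β := by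
      rw [dens_fst (β := V) (fun p : V => β < dens (fun q => G p q ∧ ¬ (A p ↔ B q)))]
      exact hbad
    have h8 : dens (fun x : V × V => dens (fun q => G x.1 q ∧ ¬ (A x.1 ↔ B q)) ≤ β ∧
            ¬ (G x.1 x.2 ↔ (A x.1 ↔ B x.2))) ≤ 3 * β := by
      refine dens_prod_le (Q := fun p r => dens (fun q => G p q ∧ ¬ (A p ↔ B q)) ≤ β ∧
            ¬ (G p r ↔ (A p ↔ B r))) (by linarith) fun p => ?_
      by_cases hb : dens (fun q => G p q ∧ ¬ (A p ↔ B q)) ≤ β
      · by_cases hA : A p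
        · have h9 := line_three (B := B) (β := β) (hG p) (by linarith [hB.2]) (by
            refine le_trans (dens_mono fun q hq => ?_) hb
            tauto)
          refine le_trans (dens_mono fun q hq => ?_) h9
          tauto
        · have h9 := line_three (B := fun q => ¬ B q) (β := β) (hG p) hnB (by
            refine le_trans (dens_mono fun q hq => ?_) hb
            tauto)
          refine le_trans (dens_mono fun q hq => ?_) h9
          tauto
      · have h9 : dens (fun r => dens (fun q => G p q ∧ ¬ (A p ↔ B q)) ≤ β ∧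
            ¬ (G p r ↔ (A p ↔ B r))) ≤ dens (fun _ : V => False) :=
          dens_mono fun r hr => hb hr.1
        rw [dens_false] at h9
        linarith
    linarith
  have h5 : dens (fun x : V × V => ¬ (G x.2 x.1 ↔ (A x.2 ↔ B x.1))) ≤ 4 * β := by
    rw [dens_swap (fun p q => ¬ (G p q ↔ (A p ↔ B q)))]
    exact h4
  have h6 : dens (fun x : V × V => ¬ ((A x.1 ↔ B x.1) ↔ (A x.2 ↔ B x.2))) ≤ 8 * β := by
    have h7 := dens_or_le (fun x : V × V => ¬ (G x.1 x.2 ↔ (A x.1 ↔ B x.2)))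
      (fun x : V × V => ¬ (G x.2 x.1 ↔ (A x.2 ↔ B x.1)))
    have h8 : dens (fun x : V × V => ¬ ((A x.1 ↔ B x.1) ↔ (A x.2 ↔ B x.2))) ≤
        dens (fun x : V × V => ¬ (G x.1 x.2 ↔ (A x.1 ↔ B x.2)) ∨
          ¬ (G x.2 x.1 ↔ (A x.2 ↔ B x.1))) := dens_mono fun x hx => by
      have h9 := hsym x.1 x.2
      tauto
    linarith
  obtain ⟨p, hp⟩ := exists_le_of_prod (Q := fun p q => ¬ ((A p ↔ B p) ↔ (A q ↔ B q))) h6
  by_cases hc : A p ↔ B p
  · left
    refine le_trans (dens_mono fun q hq => ?_) hp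
    tauto
  · right
    refine le_trans (dens_mono fun q hq => ?_) hp
    tauto

end general

theorem plt : PltStmt := by
  intro k V _ _ E D β a i l hβ hβ1 hS hD hil hpl
  set G : V → V → Prop := fun p q => E (update (update a l p) i q) with hGdef
  set A : V → Prop := fun p => D i (update a l p) with hAdef
  set B : V → Prop := fun q => D l (update a i q) with hBdef
  have hG : ∀ p, 1 / 2 ≤ dens (G p) := fun p => hD (update a l p) i
  have hcomm : ∀ p q, update (update a l p) i q = update (update a i q) l p := fun p q =>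
    (update_comm hil q p a).symm
  have hsym : ∀ p q, G p q ↔ G q p := by
    intro p q
    have h1 := hS (Equiv.swap i l) (update (update a l p) i q)
    have h2 : update (update a l p) i q ∘ Equiv.swap i l = update (update a l q) i p := by
      funext x
      rw [comp_apply]
      by_cases hx : x = i
      · subst hx
        rw [Equiv.swap_apply_left, update_self, update_of_ne hil.symm, update_self]
      · by_cases hx' : x = l
        · subst hx'
          rw [Equiv.swap_apply_right, update_self, update_of_ne hx, update_self]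
        · rw [Equiv.swap_apply_of_ne_of_ne hx hx', update_of_ne hx, update_of_ne hx',
            update_of_ne hx, update_of_ne hx']
    rw [h2] at h1
    exact h1.symm
  have hp : dens (fun x : V × V => G x.1 x.2 ∧ ¬ (A x.1 ↔ B x.2)) ≤ β ^ 2 := hpl
  have hp' : dens (fun x : V × V => G x.1 x.2 ∧ ¬ (B x.1 ↔ A x.2)) ≤ β ^ 2 := by
    have h1 := dens_swap (fun p q => G p q ∧ ¬ (A p ↔ B q))
    rw [← h1] at hp
    refine le_trans (dens_mono fun x hx => ?_) hp
    have h2 := hsym x.1 x.2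
    tauto
  have hpn : dens (fun x : V × V => G x.1 x.2 ∧ ¬ ((¬ A x.1) ↔ (¬ B x.2))) ≤ β ^ 2 :=
    le_trans (dens_mono fun x hx => by tauto) hp
  have hpn' : dens (fun x : V × V => G x.1 x.2 ∧ ¬ ((¬ B x.1) ↔ (¬ A x.2))) ≤ β ^ 2 :=
    le_trans (dens_mono fun x hx => by tauto) hp'
  have e1 : β < dens A → 1 / 2 ≤ β + dens B := half_le hβ hG hp
  have e2 : β < dens B → 1 / 2 ≤ β + dens A := half_le hβ hG hp'
  have e3 : β < dens (fun p => ¬ A p) → 1 / 2 ≤ β + dens (fun p => ¬ B p) := half_le hβ hG hpn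
  have e4 : β < dens (fun p => ¬ B p) → 1 / 2 ≤ β + dens (fun p => ¬ A p) := half_le hβ hG hpn'
  change (dens A ≤ β ∧ dens B ≤ β) ∨ (dens (fun p => ¬ A p) ≤ β ∧ dens (fun q => ¬ B q) ≤ β) ∨
    (((1 / 4 : ℝ) ≤ dens A ∧ dens A ≤ 3 / 4) ∧ |dens A - 1 / 2| ≤ β ∧ |dens B - 1 / 2| ≤ β ∧
      pm (8 * β) A B)
  by_cases c1 : dens A ≤ β
  · left
    refine ⟨c1, ?_⟩
    by_contra h1
    rw [not_le] at h1
    linarith [e2 h1]
  · by_cases c2 : dens (fun p => ¬ A p) ≤ β
    · right; left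
      refine ⟨c2, ?_⟩
      by_contra h1
      rw [not_le] at h1
      linarith [e4 h1]
    · right; right
      rw [not_le] at c1 c2
      have f1 := e1 c1
      have f2 := e3 c2
      rw [dens_not] at f2
      have f3 := e2 (by linarith)
      have f4 := e4 (by rw [dens_not]; linarith)
      rw [dens_not] at f4
      have g1 : |dens A - 1 / 2| ≤ β := by rw [abs_le]; constructor <;> linarith
      have g2 : |dens B - 1 / 2| ≤ β := by rw [abs_le]; constructor <;> linarith
      exact ⟨⟨by linarith, by linarith⟩, g1, g2, last_case hβ hsym hG hp g2⟩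

end Pool.Agent.KK.B.H69
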